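import Mathlib
import Pool.Agent.Helper19.PS.DefsA
import Pool.Agent.Helper20.VF.CircB

/-!
# PS-21: the circle inequality with a gain
-/

open MeasureTheory Set Metric Filter
open scoped Topology Real

namespace Pool.Agent.Helper19.PS

open Pool.Agent.Helper20.VF

private lemma ps21_cos4 : ∫ t in (0 : ℝ)..(2 * π), Real.cos t ^ 4 = 3 * π / 4 := by
  have h := integral_cos_pow (a := 0) (b := 2 * π) 2
  simp only [Real.cos_two_pi, Real.sin_two_pi, Real.sin_zero] at h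
  rw [integral_cos_sq] at h
  simp only [Real.cos_two_pi, Real.sin_two_pi, Real.sin_zero] at h
  norm_num at h
  rw [h]
  ring

theorem J_le_gain {n : ℕ} (hn : 5 ≤ n) {u : ℝ} (hu0 : 0 < u) (hu : u ≤ 1 / 2) :
    ∫ t in (0 : ℝ)..(2 * π), ((1 - u) * Real.cos t ^ 2 + u * Real.sin t ^ 2) ^ ((n : ℝ) / 2)
      ≤ (∫ t in (0 : ℝ)..(2 * π), |Real.cos t| ^ n) * (1 - u / 2) := by
  have hn5 : (5 : ℝ) ≤ n := by exact_mod_cast hn
  have hp1 : (1 : ℝ) ≤ (n : ℝ) / 2 := by linarith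
  have hp0 : (0 : ℝ) ≤ (n : ℝ) / 2 := by linarith
  have hpow : ∀ x : ℝ, (x ^ 2) ^ ((n : ℝ) / 2) = |x| ^ n := by
    intro x
    rw [← sq_abs, ← Real.rpow_natCast (|x|) 2, ← Real.rpow_mul (abs_nonneg x),
      ← Real.rpow_natCast (|x|) n]
    congr 1
    push_cast
    ring
  -- convexity in u
  have hb : ∀ t, ((1 - u) * Real.cos t ^ 2 + u * Real.sin t ^ 2) ^ ((n : ℝ) / 2)
      ≤ (1 - 2 * u) * |Real.cos t| ^ n + 2 * u * (1 / 2 : ℝ) ^ ((n : ℝ) / 2) := by
    intro t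
    have e : (1 - u) * Real.cos t ^ 2 + u * Real.sin t ^ 2 =
        (1 - 2 * u) * Real.cos t ^ 2 + 2 * u * (1 / 2) := by
      linear_combination u * Real.sin_sq_add_cos_sq t
    rw [e, ← hpow]
    have h := (convexOn_rpow hp1).2 (mem_Ici.2 (sq_nonneg (Real.cos t)))
      (mem_Ici.2 (by norm_num : (0 : ℝ) ≤ 1 / 2)) (by linarith : (0 : ℝ) ≤ 1 - 2 * u)
      (by linarith : (0 : ℝ) ≤ 2 * u) (by ring)
    simpa using h
  have c0 : Continuous fun t : ℝ => ((1 - u) * Real.cos t ^ 2 + u * Real.sin t ^ 2) ^ ((n : ℝ) / 2) := by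
    refine Continuous.rpow_const (by fun_prop) (fun t => Or.inr hp0)
  have c1 : Continuous fun t : ℝ => (1 - 2 * u) * |Real.cos t| ^ n + 2 * u * (1 / 2 : ℝ) ^ ((n : ℝ) / 2) := by
    fun_prop
  have c2 : Continuous fun t : ℝ => (1 - 2 * u) * |Real.cos t| ^ n := by fun_prop
  have s1 : ∫ t in (0 : ℝ)..(2 * π), ((1 - u) * Real.cos t ^ 2 + u * Real.sin t ^ 2) ^ ((n : ℝ) / 2)
      ≤ (1 - 2 * u) * (∫ t in (0 : ℝ)..(2 * π), |Real.cos t| ^ n)
        + 2 * π * (2 * u * (1 / 2 : ℝ) ^ ((n : ℝ) / 2)) := by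
    calc _ ≤ ∫ t in (0 : ℝ)..(2 * π), ((1 - 2 * u) * |Real.cos t| ^ n
          + 2 * u * (1 / 2 : ℝ) ^ ((n : ℝ) / 2)) :=
          intervalIntegral.integral_mono (by positivity) (c0.intervalIntegrable _ _)
            (c1.intervalIntegrable _ _) (fun t => hb t)
      _ = _ := by
          rw [intervalIntegral.integral_add (c2.intervalIntegrable _ _)
            (continuous_const.intervalIntegrable _ _), intervalIntegral.integral_const_mul,
            intervalIntegral.integral_const]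
          simp
  -- lower bound for G
  have hq1 : (1 : ℝ) ≤ (n : ℝ) / 4 := by linarith
  have hlow : ∀ t : ℝ, (1 / 2 : ℝ) ^ ((n : ℝ) / 2) * (1 + (n : ℝ) / 4 * (4 * Real.cos t ^ 4 - 1))
      ≤ |Real.cos t| ^ n := by
    intro t
    have hbern := one_add_mul_self_le_rpow_one_add
      (s := 4 * Real.cos t ^ 4 - 1) (by nlinarith [sq_nonneg (Real.cos t ^ 2)]) hq1
    have e1 : 1 + (4 * Real.cos t ^ 4 - 1) = (2 * Real.cos t ^ 2) ^ (2 : ℝ) := by
      rw [Real.rpow_two]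
      ring
    have hc0 : 0 ≤ 2 * Real.cos t ^ 2 := by positivity
    rw [e1, ← Real.rpow_mul hc0, show (2 : ℝ) * ((n : ℝ) / 4) = (n : ℝ) / 2 by ring,
      Real.mul_rpow (by norm_num) (sq_nonneg _), hpow] at hbern
    have h2 : (1 / 2 : ℝ) ^ ((n : ℝ) / 2) * (2 : ℝ) ^ ((n : ℝ) / 2) = 1 := by
      rw [← Real.mul_rpow (by norm_num) (by norm_num)]
      norm_num
    have hpos : 0 ≤ (1 / 2 : ℝ) ^ ((n : ℝ) / 2) := Real.rpow_nonneg (by norm_num) _
    calc _ ≤ (1 / 2 : ℝ) ^ ((n : ℝ) / 2) * (2 ^ ((n : ℝ) / 2) * |Real.cos t| ^ n) :=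
          mul_le_mul_of_nonneg_left hbern hpos
      _ = |Real.cos t| ^ n := by rw [← mul_assoc, h2, one_mul]
  have c3 : Continuous fun t : ℝ =>
      (1 / 2 : ℝ) ^ ((n : ℝ) / 2) * (1 + (n : ℝ) / 4 * (4 * Real.cos t ^ 4 - 1)) := by fun_prop
  have c4 : Continuous fun t : ℝ => |Real.cos t| ^ n := by fun_prop
  have s2 : (1 / 2 : ℝ) ^ ((n : ℝ) / 2) * (2 * π * (1 + (n : ℝ) / 8)) ≤
      ∫ t in (0 : ℝ)..(2 * π), |Real.cos t| ^ n := by
    calc _ = ∫ t in (0 : ℝ)..(2 * π),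
          (1 / 2 : ℝ) ^ ((n : ℝ) / 2) * (1 + (n : ℝ) / 4 * (4 * Real.cos t ^ 4 - 1)) := by
          rw [intervalIntegral.integral_const_mul]
          congr 1
          have e2 : ∀ t : ℝ, 1 + (n : ℝ) / 4 * (4 * Real.cos t ^ 4 - 1) =
              (1 - (n : ℝ) / 4) + (n : ℝ) * Real.cos t ^ 4 := fun t => by ring
          simp_rw [e2]
          rw [intervalIntegral.integral_add (continuous_const.intervalIntegrable _ _)
            ((by fun_prop : Continuous fun t : ℝ => (n : ℝ) * Real.cos t ^ 4).intervalIntegrable _ _),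
            intervalIntegral.integral_const_mul, intervalIntegral.integral_const, ps21_cos4]
          simp
          ring
      _ ≤ _ := intervalIntegral.integral_mono (by positivity) (c3.intervalIntegrable _ _)
            (c4.intervalIntegrable _ _) (fun t => hlow t)
  have hM0 : 0 ≤ (1 / 2 : ℝ) ^ ((n : ℝ) / 2) := Real.rpow_nonneg (by norm_num) _
  set M : ℝ := (1 / 2 : ℝ) ^ ((n : ℝ) / 2) with hM
  set G : ℝ := ∫ t in (0 : ℝ)..(2 * π), |Real.cos t| ^ n with hG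
  have hπ := Real.pi_pos
  have h3 : 2 * π * M * (13 / 8) ≤ G := by
    have : 2 * π * M * (13 / 8) ≤ 2 * π * M * (1 + (n : ℝ) / 8) :=
      mul_le_mul_of_nonneg_left (by linarith) (by positivity)
    linarith
  have h4 : 2 * u * (2 * π * M) ≤ 2 * u * (3 / 4 * G) := by
    apply mul_le_mul_of_nonneg_left _ (by linarith)
    have : 0 ≤ 2 * π * M := by positivity
    linarith
  linarith

theorem circle_ineq_gain {n : ℕ} (hn : 5 ≤ n) (hW : OneVarG n) {a b a' b' : ℝ}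
    (hpos : ∀ t, 0 < frm a b t)
    (hκ : ∀ t, 0 ≤ frm a' b' t) {δ δ' σ : ℝ → ℝ}
    (hδ : ∀ t, HasDerivAt δ (δ' t) t) (hδ'c : Continuous δ') (hper : δ (2 * π) = δ 0)
    (hσ : Continuous σ)
    (hstar : ∀ t, (2 * n + 3) * σ t - (3 * n + 6) * δ t ^ 2 ≤
      (2 * n + 3) * (frm a b t ^ n + n * frm a' b' t * frm a b t ^ (n - 1))
        - (3 * n + 6) * frm a' b' t * frm a b t ^ n)
    (hδκ : ∀ t, δ t ^ 2 ≤ frm a' b' t * frm a b t ^ n) :
    ∃ φ u : ℝ, 0 < u ∧ u ≤ 1 / 2 ∧ frm a b φ = 1 - u ∧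
    (∫ t in (0 : ℝ)..(2 * π), ((2 * n + 3) * (σ t - δ t ^ 2) - (n + 3) / (n + 1) * δ' t ^ 2)
        * frm a b t ^ (-((n : ℝ) / 2))
      ≤ 2 * (n + 1) * n * (2 * (∫ t in (0 : ℝ)..(2 * π), |Real.cos t| ^ n)
            * (1 - (n * u + (1 - frm a' b' φ)) / (2 * n))
          - ∫ t in (0 : ℝ)..(2 * π), frm a b t ^ ((n : ℝ) / 2))) ∧
    ∫ t in (0 : ℝ)..(2 * π), frm a b t ^ ((n : ℝ) / 2)
      ≤ (∫ t in (0 : ℝ)..(2 * π), |Real.cos t| ^ n) * (1 - u / 2) := by
  have hδc : Continuous δ := continuous_iff_continuousAt.2 fun t => (hδ t).continuousAt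
  have hc := continuous_frm a b
  have hc2 := continuous_frm a' b'
  obtain ⟨φ, u, hu0, hu1, hq, hform⟩ := frm_rotate hpos
  obtain ⟨A, B, G, hAB, hA, hB, hform2⟩ := frm_rotate2 a' b' φ
  have hperJ : Function.Periodic (fun t => frm a b t ^ ((n : ℝ) / 2)) (2 * π) := by
    intro t
    simp only
    rw [frm_periodic a b t]
  refine ⟨φ, u, hu0, hu1, ?_, ?_, ?_⟩
  · have h0 := hform 0
    rw [zero_add, Real.cos_zero, Real.sin_zero] at h0
    rw [h0]
    ring
  swap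
  · rw [← integral_shift hperJ φ]
    simp only [hform]
    exact J_le_gain hn hu0 hu1
  have hw := wirt hpos hδ hδ'c hper ((n : ℝ) + 1)
  rw [hq] at hw
  have hn1 : ((n : ℝ) + 1 - 1) / 2 = (n : ℝ) / 2 := by ring
  rw [hn1] at hw
  have hcp := continuous_rpow_frm hpos (-((n : ℝ) / 2))
  have hne : ∀ t, frm a b t ≠ 0 := fun t => (hpos t).ne'
  have hi2 : Continuous fun t => (frm a b t ^ 2)⁻¹ := (hc.pow 2).inv₀ (fun t => pow_ne_zero 2 (hne t))
  set q := u * (1 - u) with hqdef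
  have hq0 : 0 ≤ q := mul_nonneg hu0.le (by linarith)
  have c1 : Continuous (fun t => (2 * n + 3) * (σ t - δ t ^ 2) * frm a b t ^ (-((n : ℝ) / 2))) := by
    fun_prop
  have c2 : Continuous (fun t => δ' t ^ 2 * frm a b t ^ (-((n : ℝ) / 2))) := by fun_prop
  have c2' : Continuous (fun t => (n + 3) / (n + 1) * (δ' t ^ 2 * frm a b t ^ (-((n : ℝ) / 2)))) := by
    fun_prop
  have c3 : Continuous (fun t => ((n : ℝ) + 1) * (1 - q / frm a b t ^ 2) * δ t ^ 2
        * frm a b t ^ (-((n : ℝ) / 2))) := by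
    simp only [div_eq_mul_inv]
    fun_prop
  have c3' : Continuous (fun t => (n + 3) / (n + 1) * (((n : ℝ) + 1) * (1 - q / frm a b t ^ 2) * δ t ^ 2
        * frm a b t ^ (-((n : ℝ) / 2)))) := c3.const_mul _ 
  -- step 1
  have hn0 : (0 : ℝ) < n + 1 := by positivity
  have s1 : ∫ t in (0 : ℝ)..(2 * π), ((2 * n + 3) * (σ t - δ t ^ 2) - (n + 3) / (n + 1) * δ' t ^ 2)
        * frm a b t ^ (-((n : ℝ) / 2))
      ≤ ∫ t in (0 : ℝ)..(2 * π), ((2 * n + 3) * (σ t - δ t ^ 2) * frm a b t ^ (-((n : ℝ) / 2))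
        - (n + 3) / (n + 1) * (((n : ℝ) + 1) * (1 - q / frm a b t ^ 2) * δ t ^ 2
        * frm a b t ^ (-((n : ℝ) / 2)))) := by
    have e1 : ∀ t, ((2 * n + 3) * (σ t - δ t ^ 2) - (n + 3) / (n + 1) * δ' t ^ 2)
        * frm a b t ^ (-((n : ℝ) / 2)) = (2 * n + 3) * (σ t - δ t ^ 2) * frm a b t ^ (-((n : ℝ) / 2))
          - (n + 3) / (n + 1) * (δ' t ^ 2 * frm a b t ^ (-((n : ℝ) / 2))) := fun t => by ring
    simp_rw [e1]
    rw [intervalIntegral.integral_sub (c1.intervalIntegrable _ _) (c2'.intervalIntegrable _ _),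
      intervalIntegral.integral_sub (c1.intervalIntegrable _ _) (c3'.intervalIntegrable _ _),
      intervalIntegral.integral_const_mul ((n + 3) / (n + 1) : ℝ),
      intervalIntegral.integral_const_mul ((n + 3) / (n + 1) : ℝ)]
    have : (0 : ℝ) ≤ (n + 3) / (n + 1) := by positivity
    nlinarith [mul_le_mul_of_nonneg_left hw this]
  refine s1.trans ?_
  -- step 2: the pointwise bound
  set Wf : ℝ → ℝ := fun t => (2 * n + 3) * (frm a b t ^ ((n : ℝ) / 2)
      + n * frm a' b' t * frm a b t ^ ((n : ℝ) / 2 - 1))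
      - (3 * n + 6) * frm a' b' t * frm a b t ^ ((n : ℝ) / 2)
      + (n + 3) * q * frm a' b' t * frm a b t ^ ((n : ℝ) / 2 - 2) with hWf
  have hpt : ∀ t, (2 * n + 3) * (σ t - δ t ^ 2) * frm a b t ^ (-((n : ℝ) / 2))
        - (n + 3) / (n + 1) * (((n : ℝ) + 1) * (1 - q / frm a b t ^ 2) * δ t ^ 2
        * frm a b t ^ (-((n : ℝ) / 2))) ≤ Wf t := by
    intro t
    have hC := hpos t
    have hY : 0 < frm a b t ^ (-((n : ℝ) / 2)) := Real.rpow_pos_of_pos hC _
    have r0 := rpow_aux hC (n := n) 0 (by omega)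
    have r1 := rpow_aux hC (n := n) 1 (by omega)
    have r2 := rpow_aux hC (n := n) 2 (by omega)
    have e0 : frm a b t ^ n = frm a b t ^ (n - 2) * frm a b t ^ 2 := by
      rw [← pow_add]; congr 1; omega
    have hs := hstar t
    have hd := hδκ t
    simp only [hWf]
    simp only [Nat.cast_zero, sub_zero, Nat.sub_zero, Nat.cast_one, Nat.cast_ofNat] at r0 r1 r2
    rw [← r0, ← r1, ← r2]
    generalize frm a b t ^ (-((n : ℝ) / 2)) = Y at *
    have hC2 : 0 < frm a b t ^ 2 := by positivity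
    have hd2 : δ t ^ 2 / frm a b t ^ 2 ≤ frm a' b' t * frm a b t ^ (n - 2) := by
      rw [div_le_iff₀ hC2, mul_assoc, ← e0]
      exact hd
    have e3 : (2 * n + 3) * (σ t - δ t ^ 2) * Y
        - (n + 3) / (n + 1) * (((n : ℝ) + 1) * (1 - q / frm a b t ^ 2) * δ t ^ 2 * Y)
        = ((2 * n + 3) * σ t - (3 * n + 6) * δ t ^ 2) * Y
          + (n + 3) * q * (δ t ^ 2 / frm a b t ^ 2) * Y := by
      field_simp
      ring
    rw [e3]
    have h1 := mul_le_mul_of_nonneg_right hs hY.le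
    have h2 : (n + 3) * q * (δ t ^ 2 / frm a b t ^ 2) * Y
        ≤ (n + 3) * q * (frm a' b' t * frm a b t ^ (n - 2)) * Y := by
      refine mul_le_mul_of_nonneg_right (mul_le_mul_of_nonneg_left hd2 ?_) hY.le
      positivity
    calc _ ≤ _ := add_le_add h1 h2
      _ = _ := by ring
  have cWf : Continuous Wf := by
    have k1 := continuous_rpow_frm hpos ((n : ℝ) / 2)
    have k2 := continuous_rpow_frm hpos ((n : ℝ) / 2 - 1)
    have k3 := continuous_rpow_frm hpos ((n : ℝ) / 2 - 2)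
    simp only [hWf]
    fun_prop
  have s2 := intervalIntegral.integral_mono (μ := volume) (a := 0) (b := 2 * π) (by positivity)
    ((c1.sub c3').intervalIntegrable _ _) (cWf.intervalIntegrable _ _) (fun t => hpt t)
  refine s2.trans ?_
  -- step 3: rotate
  have hperW : Function.Periodic Wf (2 * π) := by
    intro t
    simp only [hWf]
    rw [frm_periodic a b t, frm_periodic a' b' t]
  rw [← integral_shift hperW φ, ← integral_shift hperJ φ]
  have h4 := hW u hu0 hu1 A B G (hA ▸ hκ _) (hB ▸ hκ _) hAB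
  have hB1 : B = 1 - frm a' b' φ := by rw [← hA]; linarith
  rw [← hB1]
  simp only [hWf, hform, hform2]
  exact h4

end Pool.Agent.Helper19.PS
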